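import Pool.Agent.L7h89.NH.Stm

/-!
# Project NH: parts BAS, CNT
-/

set_option autoImplicit false
set_option linter.all false

namespace Pool.Agent.L7h75.NH

open Pool.Agent.L7h89.NH
open scoped LinearAlgebra.Projectivization Matrix Classical

theorem on_orth {F : Type} [Field F] (p l : Pt F) : On p l ↔ p.orthogonal l := by
  conv_rhs => rw [← p.mk_rep, ← l.mk_rep]
  exact Iff.rfl

theorem on_mk {F : Type} [Field F] (v u : Fin 3 → F) (hv : v ≠ 0) (hu : u ≠ 0) :
    On (Projectivization.mk F v hv) (Projectivization.mk F u hu) ↔ v ⬝ᵥ u = 0 := by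
  rw [on_orth]
  exact Iff.rfl

theorem on_comm {F : Type} [Field F] (p l : Pt F) : On p l ↔ On l p := by
  unfold On
  rw [dotProduct_comm]

open Configuration Configuration.ofField in
theorem ord_eq (F : Type) [Field F] [Fintype F] :
    ProjectivePlane.order (Pt F) (Pt F) = Fintype.card F := by
  have h1 := ProjectivePlane.card_points (Pt F) (Pt F)
  have h2 := Projectivization.card_of_finrank F (Fin 3 → F) (n := 3) (by simp)
  rw [Nat.card_eq_fintype_card, Nat.card_eq_fintype_card] at h2
  have h3 : Fintype.card (Pt F) = 1 + Fintype.card F + Fintype.card F ^ 2 := by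
    rw [h2]
    simp [Finset.sum_range_succ]
  set n := ProjectivePlane.order (Pt F) (Pt F)
  set q := Fintype.card F
  rw [h3] at h1
  rcases lt_trichotomy n q with h | h | h
  · nlinarith
  · exact h
  · nlinarith

open Configuration Configuration.ofField in
theorem s_BAS : S_BAS := by
  intro F _ _
  refine ⟨fun p l => on_comm p l, ?_, ?_, ?_, ?_, ?_, fun v u hv hu => on_mk v u hv hu⟩
  · intro p p' hp
    refine ⟨Projectivization.cross p p', (on_orth _ _).2 (Projectivization.orthogonal_cross_left hp),
      (on_orth _ _).2 (Projectivization.orthogonal_cross_right hp), ?_⟩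
    intro m h1 h2
    rcases eq_or_eq_of_orthogonal ((on_orth _ _).1 h1) ((on_orth _ _).1 h2)
      (Projectivization.orthogonal_cross_left hp) (Projectivization.orthogonal_cross_right hp) with h | h
    · exact absurd h hp
    · exact h
  · intro l l' hl
    refine ⟨Projectivization.cross l l', (on_orth _ _).2 (Projectivization.cross_orthogonal_left hl),
      (on_orth _ _).2 (Projectivization.cross_orthogonal_right hl), ?_⟩
    intro m h1 h2
    rcases eq_or_eq_of_orthogonal ((on_orth _ _).1 h1)
      (Projectivization.cross_orthogonal_left hl) ((on_orth _ _).1 h2)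
      (Projectivization.cross_orthogonal_right hl) with h | h
    · exact h
    · exact absurd h hl
  · intro p
    have h := ProjectivePlane.lineCount_eq (Pt F) p
    rw [ord_eq] at h
    rw [← h]
    unfold lineCount
    rw [Nat.card_eq_fintype_card, Fintype.card_subtype]
    congr 1
    ext l
    simp only [Finset.mem_filter, Finset.mem_univ, true_and]
    exact on_orth p l
  · intro l
    have h := ProjectivePlane.pointCount_eq (Pt F) l
    rw [ord_eq] at h
    rw [← h]
    unfold pointCount
    rw [Nat.card_eq_fintype_card, Fintype.card_subtype]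
    congr 1
    ext p
    simp only [Finset.mem_filter, Finset.mem_univ, true_and]
    exact on_orth p l
  · have h1 := ProjectivePlane.card_points (Pt F) (Pt F)
    rw [ord_eq] at h1
    rw [← h1]

theorem s_CNT (hB : S_BAS) : S_CNT := by
  intro F _ _ S hS
  obtain ⟨hsym, hline, hpoint, hl, hp, hcard, -⟩ := hB F
  set q := Fintype.card F with hq
  have hq0 : 0 < q := Fintype.card_pos
  -- the degree as a sum
  have hd : ∀ l : Pt F, (deg S l : ℤ) = ∑ p ∈ S, if On p l then 1 else 0 := by
    intro l
    unfold deg meet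
    rw [Finset.card_filter]
    push_cast
    rfl
  have h0 : ∑ l : Pt F, (1 : ℤ) = (q : ℤ) ^ 2 + q + 1 := by
    rw [Finset.sum_const, Finset.card_univ, hcard]
    push_cast
    ring
  have h1 : ∑ l : Pt F, (deg S l : ℤ) = ((q : ℤ) + 1) * (q + 1) := by
    simp_rw [hd]
    rw [Finset.sum_comm]
    have : ∀ p ∈ S, ∑ l : Pt F, (if On p l then (1 : ℤ) else 0) = q + 1 := by
      intro p _
      have := hl p
      rw [Finset.card_filter] at this
      exact_mod_cast this
    rw [Finset.sum_congr rfl this, Finset.sum_const, hS]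
    push_cast
    ring
  have h2 : ∑ l : Pt F, (deg S l : ℤ) ^ 2 = ((q : ℤ) + 1) * (q + 1 + q) := by
    have h3 : ∀ l : Pt F, (deg S l : ℤ) ^ 2 =
        ∑ p ∈ S, ∑ p' ∈ S, if On p l ∧ On p' l then 1 else 0 := by
      intro l
      rw [hd, sq, Finset.sum_mul_sum]
      refine Finset.sum_congr rfl fun p _ => Finset.sum_congr rfl fun p' _ => ?_
      by_cases h : On p l <;> by_cases h' : On p' l <;> simp [h, h']
    simp_rw [h3]
    rw [Finset.sum_comm]
    have h4 : ∀ p ∈ S, ∑ l : Pt F, ∑ p' ∈ S, (if On p l ∧ On p' l then (1 : ℤ) else 0) =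
        q + 1 + q := by
      intro p hpS
      rw [Finset.sum_comm, ← Finset.add_sum_erase S _ hpS]
      have h5 : ∑ l : Pt F, (if On p l ∧ On p l then (1 : ℤ) else 0) = q + 1 := by
        have := hl p
        rw [Finset.card_filter] at this
        simp only [and_self]
        exact_mod_cast this
      have h6 : ∀ p' ∈ S.erase p, ∑ l : Pt F, (if On p l ∧ On p' l then (1 : ℤ) else 0) = 1 := by
        intro p' hp'
        obtain ⟨l, hl1, hl2, hl3⟩ := hline p p' (Finset.ne_of_mem_erase hp').symm
        rw [Finset.sum_eq_single l]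
        · rw [if_pos ⟨hl1, hl2⟩]
        · intro m _ hm
          rw [if_neg]
          rintro ⟨h7, h8⟩
          exact hm (hl3 m h7 h8)
        · intro h
          exact absurd (Finset.mem_univ _) h
      rw [h5, Finset.sum_congr rfl h6, Finset.sum_const, Finset.card_erase_of_mem hpS, hS]
      push_cast
      simp
    rw [Finset.sum_congr rfl h4, Finset.sum_const, hS]
    push_cast
    ring
  have hu : (u0 S : ℤ) = ∑ l : Pt F, if deg S l = 0 then 1 else 0 := by
    have h7 : u0 S = (Finset.univ.filter (fun l : Pt F => deg S l = 0)).card := by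
      unfold u0
      rw [Nat.card_eq_fintype_card, Fintype.card_subtype]
      congr 1
      ext l
      simp only [Finset.mem_filter, Finset.mem_univ, true_and]
      unfold deg meet
      rw [Finset.card_eq_zero, Finset.filter_eq_empty_iff]
    rw [h7, Finset.card_filter]
    push_cast
    rfl
  have hw : (wt S : ℤ) = ∑ l : Pt F, (((deg S l - 1).choose 2 : ℕ) : ℤ) := by
    unfold wt
    push_cast
    rfl
  have hkey : ∀ d : ℕ, ((d : ℤ) - 1) * (d - 2) =
      2 * ((if d = 0 then 1 else 0) + (((d - 1).choose 2 : ℕ) : ℤ)) := by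
    intro d
    rcases d with _ | d
    · simp
    · have h8 : ((d + 1 - 1).choose 2 : ℕ) * 2 = d * (d - 1) := by
        rw [Nat.add_sub_cancel, Nat.choose_two_right]
        exact Nat.div_mul_cancel (Nat.even_mul_pred_self d).two_dvd
      rw [if_neg (by omega)]
      rcases d with _ | d
      · simp
      · have h9 : (((d + 1).choose 2 : ℕ) : ℤ) * 2 = (d + 1) * d := by
          have := h8
          rw [Nat.add_sub_cancel (n := d), Nat.add_sub_cancel] at this
          exact_mod_cast this
        rw [Nat.add_sub_cancel]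
        push_cast
        linear_combination -h9
  have hfin : 2 * ((u0 S : ℤ) + wt S) = (q : ℤ) * (q - 1) := by
    have h10 : 2 * ((u0 S : ℤ) + wt S) = ∑ l : Pt F, ((deg S l : ℤ) - 1) * (deg S l - 2) := by
      rw [hu, hw, ← Finset.sum_add_distrib, Finset.mul_sum]
      exact Finset.sum_congr rfl fun l _ => (hkey _).symm
    have h11 : ∑ l : Pt F, ((deg S l : ℤ) - 1) * (deg S l - 2) =
        ∑ l : Pt F, (deg S l : ℤ) ^ 2 - 3 * ∑ l : Pt F, (deg S l : ℤ) + 2 * ∑ l : Pt F, (1 : ℤ) := by
      rw [Finset.mul_sum, Finset.mul_sum, ← Finset.sum_sub_distrib, ← Finset.sum_add_distrib]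
      exact Finset.sum_congr rfl fun l _ => by ring
    rw [h10, h11, h0, h1, h2]
    ring
  have h12 : ((q - 1 : ℕ) : ℤ) = q - 1 := by omega
  have h13 : ((2 * (u0 S + wt S) : ℕ) : ℤ) = ((q * (q - 1) : ℕ) : ℤ) := by
    push_cast
    rw [hfin, h12]
  exact_mod_cast h13

end Pool.Agent.L7h75.NH
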