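import Pool.Agent.L7h75.NH.Bas

/-!
# Project NH: part CRD
-/

set_option autoImplicit false
set_option linter.all false

namespace Pool.Agent.L7h75.NH

open Pool.Agent.L7h89.NH
open scoped LinearAlgebra.Projectivization Matrix Classical

section

variable {F : Type} [Field F]

theorem dv_dot (l : Pt F) : dv l ⬝ᵥ l.rep = 1 := Classical.choose_spec (exists_dv l)

/-- a vector parallel to `l.rep` -/
theorem par_of_cross {l : Pt F} {v : Fin 3 → F} (h : crossProduct v l.rep = 0) :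
    v = (dv l ⬝ᵥ v) • l.rep := by
  have h1 := cross_cross_eq_smul_sub_smul' (dv l) v l.rep
  rw [h, map_zero, dv_dot, one_smul, dotProduct_comm v (dv l)] at h1
  exact sub_eq_zero.1 h1.symm

theorem cross_on {l x y : Pt F} (hx : On x l) (hy : On y l) :
    crossProduct x.rep y.rep = lam l x y • l.rep := by
  apply par_of_cross
  rw [cross_cross_eq_smul_sub_smul]
  have h1 : x.rep ⬝ᵥ l.rep = 0 := hx
  have h2 : y.rep ⬝ᵥ l.rep = 0 := hy
  rw [h1, h2, zero_smul, zero_smul, sub_zero]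

/-- three points are on a line iff the determinant vanishes -/
theorem coll_iff (x y z : Pt F) : (∃ l : Pt F, On x l ∧ On y l ∧ On z l) ↔
    x.rep ⬝ᵥ crossProduct y.rep z.rep = 0 := by
  rw [triple_product_eq_det, ← Matrix.exists_mulVec_eq_zero_iff]
  constructor
  · rintro ⟨l, h1, h2, h3⟩
    refine ⟨l.rep, l.rep_nonzero, ?_⟩
    ext i
    fin_cases i
    · exact h1
    · exact h2
    · exact h3
  · rintro ⟨v, hv, h⟩
    refine ⟨Projectivization.mk F v hv, ?_, ?_, ?_⟩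
    · rw [← x.mk_rep, on_mk]
      exact congrFun h 0
    · rw [← y.mk_rep, on_mk]
      exact congrFun h 1
    · rw [← z.mk_rep, on_mk]
      exact congrFun h 2

/-- expansion of a vector -/
theorem expand (m y n v : Fin 3 → F) :
    (m ⬝ᵥ crossProduct y n) • v = (v ⬝ᵥ crossProduct y n) • m + (v ⬝ᵥ crossProduct n m) • y +
      (v ⬝ᵥ crossProduct m y) • n := by
  simp_rw [cross_apply, Matrix.vec3_dotProduct]
  ext i
  fin_cases i <;>
  · simp only [Fin.isValue, Nat.succ_eq_add_one, Nat.reduceAdd, Fin.reduceFinMk, Matrix.cons_val,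
      Pi.add_apply, Pi.smul_apply, smul_eq_mul]
    ring

/-- the determinant in the new coordinates -/
theorem det_mul (m y n u v w : Fin 3 → F) :
    (m ⬝ᵥ crossProduct y n) * (u ⬝ᵥ crossProduct v w) =
      (u ⬝ᵥ m) * ((v ⬝ᵥ y) * (w ⬝ᵥ n) - (v ⬝ᵥ n) * (w ⬝ᵥ y)) +
      (u ⬝ᵥ y) * ((v ⬝ᵥ n) * (w ⬝ᵥ m) - (v ⬝ᵥ m) * (w ⬝ᵥ n)) +
      (u ⬝ᵥ n) * ((v ⬝ᵥ m) * (w ⬝ᵥ y) - (v ⬝ᵥ y) * (w ⬝ᵥ m)) := by
  simp_rw [cross_apply, Matrix.vec3_dotProduct]
  simp only [Fin.isValue, Nat.succ_eq_add_one, Nat.reduceAdd, Fin.reduceFinMk, Matrix.cons_val]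
  ring

end

theorem s_CRD : S_CRD := by
  intro F _ _ R n hRn
  have hRn' : R.rep ⬝ᵥ n.rep = 0 := hRn
  -- the vectors
  let m : Fin 3 → F := crossProduct (dv n) R.rep
  let Y : Fin 3 → F := dv R
  have hmn : crossProduct m n.rep = R.rep := by
    show crossProduct (crossProduct (dv n) R.rep) n.rep = R.rep
    rw [cross_cross_eq_smul_sub_smul, dv_dot, one_smul, hRn', zero_smul, sub_zero]
  have hYR : Y ⬝ᵥ R.rep = 1 := dv_dot R
  have hmR : m ⬝ᵥ R.rep = 0 := by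
    show crossProduct (dv n) R.rep ⬝ᵥ R.rep = 0
    rw [dotProduct_comm]
    exact dot_cross_self _ _
  have hdet : m ⬝ᵥ crossProduct Y n.rep = -1 := by
    have h1 : m ⬝ᵥ crossProduct Y n.rep = - (Y ⬝ᵥ crossProduct m n.rep) := by
      rw [triple_product_permutation m Y n.rep, ← cross_anticomm m n.rep, dotProduct_neg]
    rw [h1, hmn, hYR]
  let f : Pt F → F × F := fun p => ((p.rep ⬝ᵥ m) / (p.rep ⬝ᵥ n.rep), (p.rep ⬝ᵥ Y) / (p.rep ⬝ᵥ n.rep))
  have hn0 : ∀ p : Pt F, ¬ On p n → p.rep ⬝ᵥ n.rep ≠ 0 := fun p hp => hp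
  refine ⟨f, ?_, ?_, ?_, ?_⟩
  · -- injective
    intro x y hx hy hxy
    have hx0 := hn0 x hx
    have hy0 := hn0 y hy
    obtain ⟨h1, h2⟩ := Prod.mk.inj hxy
    have h1' : (x.rep ⬝ᵥ m) * (y.rep ⬝ᵥ n.rep) = (y.rep ⬝ᵥ m) * (x.rep ⬝ᵥ n.rep) :=
      (div_eq_div_iff hx0 hy0).1 h1
    have h2' : (x.rep ⬝ᵥ Y) * (y.rep ⬝ᵥ n.rep) = (y.rep ⬝ᵥ Y) * (x.rep ⬝ᵥ n.rep) :=
      (div_eq_div_iff hx0 hy0).1 h2
    have h3 : crossProduct x.rep y.rep = 0 := by
      -- all dot products vanish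
      have h4 : ∀ u : Fin 3 → F, u ⬝ᵥ crossProduct x.rep y.rep = 0 := by
        intro u
        have h5 := det_mul m Y n.rep u x.rep y.rep
        rw [hdet] at h5
        have h6 : (x.rep ⬝ᵥ m) * (y.rep ⬝ᵥ Y) - (x.rep ⬝ᵥ Y) * (y.rep ⬝ᵥ m) = 0 := by
          have h7 : (x.rep ⬝ᵥ n.rep) * ((x.rep ⬝ᵥ m) * (y.rep ⬝ᵥ Y) - (x.rep ⬝ᵥ Y) * (y.rep ⬝ᵥ m)) = 0 := by
            linear_combination (x.rep ⬝ᵥ Y) * h1' - (x.rep ⬝ᵥ m) * h2'
          exact (mul_eq_zero.1 h7).resolve_left hx0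
        linear_combination -h5 + (u ⬝ᵥ m) * h2' * (-1) + (u ⬝ᵥ Y) * h1' - (u ⬝ᵥ n.rep) * h6
      have h8 := dotProduct_eq_zero_iff (v := crossProduct x.rep y.rep)
      apply h8.1
      intro u
      rw [dotProduct_comm]
      exact h4 u
    rw [← x.mk_rep, ← y.mk_rep]
    exact (Projectivization.mk_eq_mk_iff_crossProduct_eq_zero _ _).2 h3
  · -- collinear
    intro x y z hx hy hz
    have hx0 := hn0 x hx
    have hy0 := hn0 y hy
    have hz0 := hn0 z hz
    rw [coll_iff]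
    have h5 := det_mul m Y n.rep x.rep y.rep z.rep
    rw [hdet] at h5
    have h6 : ((f z).2 - (f x).2) * ((f y).1 - (f x).1) - ((f y).2 - (f x).2) * ((f z).1 - (f x).1) =
        - (x.rep ⬝ᵥ crossProduct y.rep z.rep) /
          ((x.rep ⬝ᵥ n.rep) * (y.rep ⬝ᵥ n.rep) * (z.rep ⬝ᵥ n.rep)) := by
      have h7 : - (x.rep ⬝ᵥ crossProduct y.rep z.rep) = (-1) * (x.rep ⬝ᵥ crossProduct y.rep z.rep) := by
        ring
      rw [h7, h5]
      simp only [f]
      field_simp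
      ring
    constructor
    · intro h
      rw [h, neg_zero, zero_div] at h6
      exact sub_eq_zero.1 h6
    · intro h
      rw [sub_eq_zero.2 h] at h6
      have h8 := (div_eq_zero_iff.1 h6.symm).resolve_right
        (mul_ne_zero (mul_ne_zero hx0 hy0) hz0)
      exact neg_eq_zero.1 h8
  · intro x y hx hy
    have hx0 := hn0 x hx
    have hy0 := hn0 y hy
    rw [coll_iff, ← hmn, triple_product_permutation, triple_product_permutation]
    have h1 := cross_dot_cross m n.rep x.rep y.rep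
    have h2 : y.rep ⬝ᵥ crossProduct (crossProduct m n.rep) x.rep =
        crossProduct m n.rep ⬝ᵥ crossProduct x.rep y.rep := by
      rw [triple_product_permutation]
    rw [h2, h1, dotProduct_comm m x.rep, dotProduct_comm n.rep y.rep, dotProduct_comm m y.rep,
      dotProduct_comm n.rep x.rep]
    show (x.rep ⬝ᵥ m) / (x.rep ⬝ᵥ n.rep) = (y.rep ⬝ᵥ m) / (y.rep ⬝ᵥ n.rep) ↔ _
    rw [div_eq_div_iff hx0 hy0, sub_eq_zero]
  · intro l x y z hRl hxl hyl hzl hx hy hz h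
    have hx0 := hn0 x hx
    have hy0 := hn0 y hy
    have hz0 := hn0 z hz
    -- `lam l p R` against `p.rep ⬝ᵥ n.rep`
    let c : F := Y ⬝ᵥ crossProduct l.rep n.rep
    have hc : ∀ p : Pt F, On p l → p.rep ⬝ᵥ n.rep = lam l p R * c := by
      intro p hp
      have h1 := cross_on hp hRl
      have h2 := cross_cross_eq_smul_sub_smul p.rep R.rep n.rep
      rw [h1, hRn', zero_smul, sub_zero] at h2
      have h3 := congrArg (fun v => Y ⬝ᵥ v) h2
      rw [dotProduct_smul, hYR, map_smul, LinearMap.smul_apply, dotProduct_smul] at h3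
      rw [smul_eq_mul, smul_eq_mul, mul_one] at h3
      exact h3.symm
    -- the second coordinates
    have hE : ∀ p r : Pt F, On p l → On r l → p.rep ⬝ᵥ n.rep ≠ 0 → r.rep ⬝ᵥ n.rep ≠ 0 →
        (f p).2 - (f r).2 = lam l p r * (l.rep ⬝ᵥ crossProduct Y n.rep) /
          ((p.rep ⬝ᵥ n.rep) * (r.rep ⬝ᵥ n.rep)) := by
      intro p r hp hr hp0 hr0
      have h1 := cross_dot_cross p.rep r.rep Y n.rep
      rw [cross_on hp hr, smul_dotProduct, smul_eq_mul] at h1
      rw [h1]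
      simp only [f]
      field_simp
    rw [hE z x hzl hxl hz0 hx0, hE x y hxl hyl hx0 hy0, hc z hzl, hc x hxl, hc y hyl]
    rw [hc z hzl] at hz0
    rw [hc x hxl] at hx0
    rw [hc y hyl] at hy0
    have hc0 : c ≠ 0 := fun h' => hx0 (by rw [h', mul_zero])
    have hz1 : lam l z R ≠ 0 := fun h' => hz0 (by rw [h', zero_mul])
    have hx1 : lam l x R ≠ 0 := fun h' => hx0 (by rw [h', zero_mul])
    have hy1 : lam l y R ≠ 0 := fun h' => hy0 (by rw [h', zero_mul])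
    rw [div_eq_div_iff (mul_ne_zero hz0 hx0) (mul_ne_zero hx0 hy0)]
    linear_combination (l.rep ⬝ᵥ crossProduct Y n.rep) * lam l x R * c ^ 2 * h

end Pool.Agent.L7h75.NH
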